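import Mathlib

namespace Pool.Agent.Results.MP_4a71d8_al.NotCapClosed

/-- The principal right ideal `s S`. -/
def rIdeal {S : Type} [Monoid S] (s : S) : Set S := {x | ∃ a : S, x = s * a}

/-- `S` is right LCM: each intersection of principal right ideals is empty or principal. -/
def IsRightLCM (S : Type) [Monoid S] : Prop :=
  ∀ s t : S, rIdeal s ∩ rIdeal t = ∅ ∨ ∃ r : S, rIdeal s ∩ rIdeal t = rIdeal r

/-- The core of `S`. -/
def core (S : Type) [Monoid S] : Set S := {a | ∀ s : S, rIdeal a ∩ rIdeal s ≠ ∅}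

/-- The core irreducible elements of `S`. -/
def coreIrr (S : Type) [Monoid S] : Set S :=
  {s | s ∉ core S ∧ ∀ t a : S, s = t * a → a ∈ core S → IsUnit a}

/-- Every right LCM of two core irreducible elements is core irreducible. -/
def CapClosed (S : Type) [Monoid S] : Prop :=
  ∀ s ∈ coreIrr S, ∀ t ∈ coreIrr S, ∀ r : S, rIdeal s ∩ rIdeal t = rIdeal r → r ∈ coreIrr S

/-! ### The example -/

/-- The map on three letters `0, 1, 2` that sends `0` and `1` to `0` and fixes `2`. -/
def f : Fin 3 → Fin 3 := ![0, 0, 2]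

@[ext] structure T : Type where
  k : ℕ
  w : List (Fin 3)

instance : Monoid T where
  mul x y := ⟨x.k + y.k, x.w.map f^[y.k] ++ y.w⟩
  one := ⟨0, []⟩
  mul_assoc x y z := by
    ext1
    · exact add_assoc _ _ _
    · show (x.w.map f^[y.k] ++ y.w).map f^[z.k] ++ z.w = x.w.map f^[y.k + z.k] ++
        (y.w.map f^[z.k] ++ z.w)
      rw [List.map_append, List.map_map, List.append_assoc, add_comm y.k z.k,
        Function.iterate_add]
  one_mul x := by
    ext1
    · exact zero_add _
    · rfl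
  mul_one x := by
    ext1
    · exact add_zero _
    · show x.w.map f^[0] ++ [] = x.w
      simp

theorem mul_k (x y : T) : (x * y).k = x.k + y.k := rfl
theorem mul_w (x y : T) : (x * y).w = x.w.map f^[y.k] ++ y.w := rfl
theorem one_def : (1 : T) = ⟨0, []⟩ := rfl

theorem left_cancel (a b c : T) (h : a * b = a * c) : b = c := by
  have hk := congrArg T.k h
  have hw := congrArg T.w h
  rw [mul_k, mul_k] at hk
  have hk' : b.k = c.k := by omega
  rw [mul_w, mul_w, hk'] at hw
  ext1
  · exact hk'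
  · exact List.append_cancel_left hw

theorem inter_eq (s t : T) (m : ℕ) (hs : s.k ≤ m) (ht : t.k ≤ m)
    (hpre : s.w.map f^[m - s.k] <+: t.w.map f^[m - t.k])
    (hmin : ∀ x ∈ rIdeal s ∩ rIdeal t, m ≤ x.k) :
    rIdeal s ∩ rIdeal t = rIdeal (⟨m, t.w.map f^[m - t.k]⟩ : T) := by
  ext x
  constructor
  · intro hx
    have hm := hmin x hx
    obtain ⟨-, a, rfl⟩ := hx
    rw [mul_k] at hm
    refine ⟨⟨t.k + a.k - m, a.w⟩, ?_⟩
    ext1
    · rw [mul_k, mul_k]
      show t.k + a.k = m + (t.k + a.k - m)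
      omega
    · rw [mul_w, mul_w]
      show t.w.map f^[a.k] ++ a.w =
        (t.w.map f^[m - t.k]).map f^[t.k + a.k - m] ++ a.w
      rw [List.map_map, ← Function.iterate_add]
      have : t.k + a.k - m + (m - t.k) = a.k := by omega
      rw [this]
  · rintro ⟨a, rfl⟩
    obtain ⟨v, hv⟩ := hpre
    constructor
    · refine ⟨(⟨m - s.k, v⟩ : T) * a, ?_⟩
      rw [← mul_assoc]
      congr 1
      ext1
      · rw [mul_k]
        show m = s.k + (m - s.k)
        omega
      · rw [mul_w]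
        exact hv.symm
    · refine ⟨(⟨m - t.k, []⟩ : T) * a, ?_⟩
      rw [← mul_assoc]
      congr 1
      ext1
      · rw [mul_k]
        show m = t.k + (m - t.k)
        omega
      · rw [mul_w]
        simp

theorem rightLCM : IsRightLCM T := by
  intro s t
  by_cases hne : rIdeal s ∩ rIdeal t = ∅
  · exact Or.inl hne
  right
  have hex : ∃ n, ∃ x ∈ rIdeal s ∩ rIdeal t, x.k = n := by
    obtain ⟨x, hx⟩ := Set.nonempty_iff_ne_empty.mpr hne
    exact ⟨x.k, x, hx, rfl⟩
  classical
  obtain ⟨x, hx, hxk⟩ := Nat.find_spec hex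
  have hmin : ∀ y ∈ rIdeal s ∩ rIdeal t, Nat.find hex ≤ y.k := fun y hy =>
    Nat.find_min' hex ⟨y, hy, rfl⟩
  set m := Nat.find hex with hm
  obtain ⟨⟨a, ha⟩, ⟨b, hb⟩⟩ := hx
  have ha1 : s.k ≤ m := by rw [← hxk, ha, mul_k]; omega
  have hb1 : t.k ≤ m := by rw [← hxk, hb, mul_k]; omega
  have ha2 : m - s.k = a.k := by rw [← hxk, ha, mul_k]; omega
  have hb2 : m - t.k = b.k := by rw [← hxk, hb, mul_k]; omega
  have pa : s.w.map f^[m - s.k] <+: x.w := by
    rw [ha, mul_w, ha2]
    exact List.prefix_append _ _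
  have pb : t.w.map f^[m - t.k] <+: x.w := by
    rw [hb, mul_w, hb2]
    exact List.prefix_append _ _
  rcases List.prefix_or_prefix_of_prefix pa pb with h | h
  · exact ⟨_, inter_eq s t m ha1 hb1 h hmin⟩
  · refine ⟨⟨m, s.w.map f^[m - s.k]⟩, ?_⟩
    rw [Set.inter_comm]
    exact inter_eq t s m hb1 ha1 h (fun y hy => hmin y ⟨hy.2, hy.1⟩)

theorem f_iter_two (l : ℕ) : f^[l] 2 = 2 := by
  induction l with
  | zero => rfl
  | succ l ih => rw [Function.iterate_succ_apply]; exact ih

theorem f_iter_ne (l : ℕ) (x : Fin 3) (hx : x ≠ 2) : f^[l] x ≠ 2 := by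
  induction l generalizing x with
  | zero => exact hx
  | succ l ih =>
    rw [Function.iterate_succ_apply]
    apply ih
    revert x
    decide

theorem not_core (x : Fin 3) (hx : x ≠ 2) : (⟨0, [x]⟩ : T) ∉ core T := by
  intro h
  obtain ⟨y, ⟨a, ha⟩, ⟨b, hb⟩⟩ := Set.nonempty_iff_ne_empty.mpr (h ⟨0, [2]⟩)
  have h1 := congrArg T.w (ha.symm.trans hb)
  rw [mul_w, mul_w] at h1
  simp only [List.map_cons, List.map_nil, List.cons_append, List.nil_append,
    List.cons.injEq] at h1
  rw [f_iter_two] at h1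
  exact f_iter_ne _ x hx h1.1

theorem irr (x : Fin 3) (hx : x ≠ 2) : (⟨0, [x]⟩ : T) ∈ coreIrr T := by
  refine ⟨not_core x hx, ?_⟩
  intro t a h ha
  have hk := congrArg T.k h
  have hw := congrArg T.w h
  rw [mul_k] at hk
  rw [mul_w] at hw
  have hk' : a.k = 0 := by
    have : 0 = t.k + a.k := hk
    omega
  rw [hk'] at hw
  simp only [Function.iterate_zero, List.map_id] at hw
  rcases List.append_eq_cons_iff.mp hw.symm with ⟨h1, h2⟩ | ⟨w', h1, h2⟩
  · exfalso
    apply not_core x hx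
    have : (⟨0, [x]⟩ : T) = a := by
      ext1
      · exact hk'.symm
      · exact h2.symm
    rw [this]
    exact ha
  · have h3 : a.w = [] := (List.append_eq_nil_iff.mp h2.symm).2
    have : a = 1 := by
      ext1
      · exact hk'
      · exact h3
    rw [this]
    exact isUnit_one

theorem core_one : (⟨1, []⟩ : T) ∈ core T := by
  intro s
  apply Set.nonempty_iff_ne_empty.mp
  refine ⟨s * ⟨1, []⟩, ⟨⟨s.k, s.w.map f⟩, ?_⟩, ⟨⟨1, []⟩, rfl⟩⟩
  ext1
  · rw [mul_k, mul_k]
    exact add_comm _ _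
  · rw [mul_w, mul_w]
    simp

instance : Countable T := by
  have : Function.Injective (fun x : T => (x.k, x.w)) := by
    intro x y h
    simp only [Prod.mk.injEq] at h
    ext1
    · exact h.1
    · exact h.2
  exact this.countable

theorem result : ∃ (S : Type) (_ : Monoid S), Countable S ∧
    (∀ a b c : S, a * b = a * c → b = c) ∧ IsRightLCM S ∧ ¬ CapClosed S := by
  refine ⟨T, inferInstance, inferInstance, left_cancel, rightLCM, ?_⟩
  intro h
  have h1 := h ⟨0, [0]⟩ (irr 0 (by decide)) ⟨0, [1]⟩ (irr 1 (by decide)) ⟨1, [0]⟩ (by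
    have := inter_eq ⟨0, [0]⟩ ⟨0, [1]⟩ 1 (by simp) (by simp) (by simp [f]) (by
      rintro x ⟨⟨a, ha⟩, ⟨b, hb⟩⟩
      by_contra hx
      have hx0 : x.k = 0 := by omega
      have hk1 := congrArg T.k ha
      have hk2 := congrArg T.k hb
      rw [mul_k] at hk1 hk2
      have ha0 : a.k = 0 := by
        have : x.k = 0 + a.k := hk1
        omega
      have hb0 : b.k = 0 := by
        have : x.k = 0 + b.k := hk2
        omega
      have hw := congrArg T.w (ha.symm.trans hb)
      rw [mul_w, mul_w, ha0, hb0] at hw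
      simp at hw)
    rw [this]
    rfl)
  have h2 : IsUnit (⟨1, []⟩ : T) := h1.2 ⟨0, [0]⟩ ⟨1, []⟩ (by
    ext1
    · rfl
    · rfl) core_one
  obtain ⟨u, hu⟩ := h2
  have h3 : (u : T) * ((u⁻¹ : Tˣ) : T) = 1 := Units.mul_inv u
  rw [hu] at h3
  have h4 := congrArg T.k h3
  rw [mul_k] at h4
  have h5 : 1 + ((u⁻¹ : Tˣ) : T).k = 0 := h4
  omega

end Pool.Agent.Results.MP_4a71d8_al.NotCapClosed
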